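import Mathlib

/-!
# MP_ae5b4e_an, analytic exterior foliations: pencils containing the double line at infinity
-/

set_option autoImplicit false

open scoped Matrix

namespace Pool.Agent.Run7.h235.AE

/-- the quadratic form `A x² + 2 B x y + C y²` at `q - (x₀, y₀)` -/
def qd (x₀ y₀ A B C : ℝ) (q : ℝ × ℝ) : ℝ :=
  A * (q.1 - x₀) ^ 2 + 2 * B * (q.1 - x₀) * (q.2 - y₀) + C * (q.2 - y₀) ^ 2

theorem dot3 (u v : Fin 3 → ℝ) : u ⬝ᵥ v = u 0 * v 0 + u 1 * v 1 + u 2 * v 2 := by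
  simp [dotProduct, Fin.sum_univ_three]

theorem conic {L₁ L₂ L₃ : Fin 3 → ℝ} (hL : LinearIndependent ℝ ![L₁, L₂, L₃]) {κ : ℝ}
    (hκ : 0 ≤ κ) (hinf : ∀ v : Fin 3 → ℝ, v ≠ 0 →
      κ * ((L₁ ⬝ᵥ v) ^ 2 + (L₂ ⬝ᵥ v) ^ 2) = (L₃ ⬝ᵥ v) ^ 2 → v 2 = 0) :
    ∃ x₀ y₀ A B C l : ℝ, 0 < l ∧ 0 < A ∧ B ^ 2 < A * C ∧
      ∀ q : ℝ × ℝ, (L₃ ⬝ᵥ ![q.1, q.2, 1]) ^ 2 = l ∧
        (L₁ ⬝ᵥ ![q.1, q.2, 1]) ^ 2 + (L₂ ⬝ᵥ ![q.1, q.2, 1]) ^ 2 = l * qd x₀ y₀ A B C q := by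
  set M : Matrix (Fin 3) (Fin 3) ℝ := Matrix.of ![L₁, L₂, L₃] with hM
  have hu : IsUnit M := Matrix.linearIndependent_rows_iff_isUnit.mp hL
  have hdet : M.det ≠ 0 := by
    have := (Matrix.isUnit_iff_isUnit_det M).mp hu
    exact this.ne_zero
  have hdu : IsUnit M.det := (Matrix.isUnit_iff_isUnit_det M).mp hu
  have hMN : M * M⁻¹ = 1 := Matrix.mul_nonsing_inv M hdu
  have hNM : M⁻¹ * M = 1 := Matrix.nonsing_inv_mul M hdu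
  set N := M⁻¹ with hN
  have hsurj : ∀ c : Fin 3 → ℝ, L₁ ⬝ᵥ (N *ᵥ c) = c 0 ∧ L₂ ⬝ᵥ (N *ᵥ c) = c 1 ∧
      L₃ ⬝ᵥ (N *ᵥ c) = c 2 := by
    intro c
    have e : M *ᵥ (N *ᵥ c) = c := by
      rw [Matrix.mulVec_mulVec, hMN, Matrix.one_mulVec]
    exact ⟨congrFun e 0, congrFun e 1, congrFun e 2⟩
  have hback : ∀ v : Fin 3 → ℝ, v 2 = N 2 0 * (L₁ ⬝ᵥ v) + N 2 1 * (L₂ ⬝ᵥ v) +
      N 2 2 * (L₃ ⬝ᵥ v) := by
    intro v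
    have e : N *ᵥ (M *ᵥ v) = v := by
      rw [Matrix.mulVec_mulVec, hNM, Matrix.one_mulVec]
    have e2 := congrFun e 2
    rw [Matrix.mulVec, dot3] at e2
    exact e2.symm
  have hval : ∀ c : Fin 3 → ℝ, (N *ᵥ c) 2 = N 2 0 * c 0 + N 2 1 * c 1 + N 2 2 * c 2 := by
    intro c
    rw [Matrix.mulVec, dot3]
  have hne : ∀ c : Fin 3 → ℝ, c ≠ 0 → N *ᵥ c ≠ 0 := by
    intro c hc h0
    apply hc
    have e : M *ᵥ (N *ᵥ c) = c := by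
      rw [Matrix.mulVec_mulVec, hMN, Matrix.one_mulVec]
    rw [← e, h0, Matrix.mulVec_zero]
  have key : ∀ c : Fin 3 → ℝ, c ≠ 0 → κ * (c 0 ^ 2 + c 1 ^ 2) = c 2 ^ 2 →
      N 2 0 * c 0 + N 2 1 * c 1 + N 2 2 * c 2 = 0 := by
    intro c hc h1
    rw [← hval]
    apply hinf _ (hne c hc)
    rw [(hsurj c).1, (hsurj c).2.1, (hsurj c).2.2]
    exact h1
  have hs : Real.sqrt κ ^ 2 = κ := Real.sq_sqrt hκ
  have k1 := key ![1, 0, Real.sqrt κ] (fun h0 => by simpa using congrFun h0 0) (by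
    simp [hs])
  have k2 := key ![1, 0, -Real.sqrt κ] (fun h0 => by simpa using congrFun h0 0) (by
    simp [hs])
  have k3 := key ![0, 1, Real.sqrt κ] (fun h0 => by simpa using congrFun h0 1) (by
    simp [hs])
  have k4 := key ![0, 1, -Real.sqrt κ] (fun h0 => by simpa using congrFun h0 1) (by
    simp [hs])
  simp at k1 k2 k3 k4
  have n20 : N 2 0 = 0 := by linarith
  have n21 : N 2 1 = 0 := by linarith
  have hback' : ∀ v : Fin 3 → ℝ, v 2 = N 2 2 * (L₃ ⬝ᵥ v) := by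
    intro v
    have := hback v
    rw [n20, n21] at this
    linarith
  have n22 : N 2 2 ≠ 0 := by
    intro h0
    have := hback' ![0, 0, 1]
    rw [h0] at this
    simp at this
  have z0 : L₃ 0 = 0 := by
    have := hback' ![1, 0, 0]
    rw [dot3] at this
    simpa [n22] using this
  have z1 : L₃ 1 = 0 := by
    have := hback' ![0, 1, 0]
    rw [dot3] at this
    simpa [n22] using this
  have z2 : L₃ 2 ≠ 0 := by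
    intro h0
    have := hback' ![0, 0, 1]
    rw [dot3] at this
    simp [h0] at this
  set D : ℝ := L₁ 0 * L₂ 1 - L₁ 1 * L₂ 0 with hD
  have hD0 : D ≠ 0 := by
    intro h0
    apply hdet
    rw [Matrix.det_fin_three]
    have m0 : ∀ j, M 0 j = L₁ j := fun j => rfl
    have m1 : ∀ j, M 1 j = L₂ j := fun j => rfl
    have m2 : ∀ j, M 2 j = L₃ j := fun j => rfl
    rw [m0, m0, m0, m1, m1, m1, m2, m2, m2, z0, z1]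
    linear_combination (L₃ 2) * h0
  set x₀ : ℝ := (L₁ 1 * L₂ 2 - L₂ 1 * L₁ 2) / D with hx₀
  set y₀ : ℝ := (L₂ 0 * L₁ 2 - L₁ 0 * L₂ 2) / D with hy₀
  have hl : 0 < L₃ 2 ^ 2 := by positivity
  have c1 : L₁ 2 = -(L₁ 0 * x₀ + L₁ 1 * y₀) := by
    rw [hx₀, hy₀]
    field_simp
    rw [hD]
    ring
  have c2 : L₂ 2 = -(L₂ 0 * x₀ + L₂ 1 * y₀) := by
    rw [hx₀, hy₀]
    field_simp
    rw [hD]
    ring
  have hAC : ((L₁ 0 * L₁ 1 + L₂ 0 * L₂ 1) / L₃ 2 ^ 2) ^ 2 <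
      (L₁ 0 ^ 2 + L₂ 0 ^ 2) / L₃ 2 ^ 2 * ((L₁ 1 ^ 2 + L₂ 1 ^ 2) / L₃ 2 ^ 2) := by
    have e : (L₁ 0 ^ 2 + L₂ 0 ^ 2) / L₃ 2 ^ 2 * ((L₁ 1 ^ 2 + L₂ 1 ^ 2) / L₃ 2 ^ 2) -
        ((L₁ 0 * L₁ 1 + L₂ 0 * L₂ 1) / L₃ 2 ^ 2) ^ 2 = D ^ 2 / L₃ 2 ^ 4 := by
      rw [hD]
      field_simp
      ring
    have : 0 < D ^ 2 / L₃ 2 ^ 4 := by positivity
    linarith
  have hA : 0 < (L₁ 0 ^ 2 + L₂ 0 ^ 2) / L₃ 2 ^ 2 := by
    apply div_pos _ hl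
    rcases eq_or_lt_of_le (show 0 ≤ L₁ 0 ^ 2 + L₂ 0 ^ 2 by positivity) with h0 | h0
    · exfalso
      have a1 : L₁ 0 = 0 := by nlinarith [sq_nonneg (L₁ 0), sq_nonneg (L₂ 0)]
      have a2 : L₂ 0 = 0 := by nlinarith [sq_nonneg (L₁ 0), sq_nonneg (L₂ 0)]
      apply hD0
      rw [hD, a1, a2]
      ring
    · exact h0
  refine ⟨x₀, y₀, (L₁ 0 ^ 2 + L₂ 0 ^ 2) / L₃ 2 ^ 2, (L₁ 0 * L₁ 1 + L₂ 0 * L₂ 1) / L₃ 2 ^ 2,
    (L₁ 1 ^ 2 + L₂ 1 ^ 2) / L₃ 2 ^ 2, L₃ 2 ^ 2, hl, hA, hAC, fun q => ⟨?_, ?_⟩⟩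
  · rw [dot3]
    simp [z0, z1]
  · rw [dot3, dot3]
    simp only [Matrix.cons_val_zero, Matrix.cons_val_one, Matrix.cons_val]
    rw [c1, c2]
    unfold qd
    field_simp
    ring

end Pool.Agent.Run7.h235.AE
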