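import Pool.Agent.Run7.h235.AE.Main

/-!
# MP_ae5b4e_an, analytic exterior foliations: the leaves are homothetic ellipses
-/

set_option autoImplicit false

open Filter Topology Set Real
open scoped ContDiff Matrix

namespace Pool.Agent.Run7.h235.AE

open Pool.Agent.Results.MP_ae5b4e_an.WholeExteriorRigidity

variable {a b : ℝ → ℝ} (h : ConvexCurve a b) {F : ℝ × ℝ → ℝ}
  (hK : ∀ x, Good fun s => F (tp a b x s))

include h in
theorem leaf_iff (hG : Rel (Gf a b F)) (t : ℝ) (q : ℝ × ℝ) :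
    (∃ x r : ℝ, (![q.1, q.2, 1] : Fin 3 → ℝ) = r • meet a b x (tau hG t x)) ↔
      ∃ x s : ℝ, s ≠ 0 ∧ q = tp a b x s ∧ rho (fun s => F (tp a b x s)) s⁻¹ = t := by
  constructor
  · rintro ⟨x, r, hv⟩
    have hn := (nd_pos h (tau_gt hG t x) (tau_lt hG t x)).ne'
    have ht : rho (fun s => F (tp a b x s)) (sig a b x (tau hG t x)) = t := tau_eq hG t x
    generalize tau hG t x = y at hv hn ht
    rw [meet_eq] at hv
    have e0 := congrFun hv 0
    have e1 := congrFun hv 1
    have e2 := congrFun hv 2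
    simp [dirv, point] at e0 e1 e2
    have hw : wd a b x y ≠ 0 := by
      intro h0
      rw [h0] at e2
      simp at e2
    have hr : r = (wd a b x y)⁻¹ := by
      field_simp
      linarith
    refine ⟨x, (sig a b x y)⁻¹, inv_ne_zero (div_ne_zero hw hn), ?_, by rw [inv_inv]; exact ht⟩
    unfold tp sig
    refine Prod.ext ?_ ?_
    · simp only
      rw [inv_div, e0, hr]
      field_simp
      ring
    · simp only
      rw [inv_div, e1, hr]
      field_simp
      ring
  · rintro ⟨x, s, hs, rfl, ht⟩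
    obtain ⟨y, ⟨hy1, hy2⟩, hy'⟩ := sig_surj h x s⁻¹
    have e : tau hG t x = y := tau_unique hG hy1 hy2 (by
      unfold Gf
      rw [hy']
      exact ht)
    have hn := nd_pos h hy1 hy2
    have hw : wd a b x y = s⁻¹ * nd a b x y := by
      unfold sig at hy'
      rw [div_eq_iff hn.ne'] at hy'
      exact hy'
    have hn' := hn.ne'
    refine ⟨x, (wd a b x y)⁻¹, ?_⟩
    rw [e, meet_eq, hw]
    refine Pool.Agent.TH229.PG.ext3 ?_ ?_ ?_
    · simp [dirv, point, tp]
      field_simp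
      ring
    · simp [dirv, point, tp]
      field_simp
      ring
    · simp [dirv, point, tp]
      field_simp

include h hK in
theorem main : ∃ x₀ y₀ A B C : ℝ, 0 < A ∧ B ^ 2 < A * C ∧
    (∀ q : ℝ × ℝ, qd x₀ y₀ A B C q = 1 ↔ ∃ x, q = (a x, b x)) ∧
    ∃ φ : ℝ → ℝ, StrictMonoOn φ (Ici 1) ∧
      ∀ q : ℝ × ℝ, 1 ≤ qd x₀ y₀ A B C q → F q = φ (qd x₀ y₀ A B C q) := by
  have hG := rel h hK
  obtain ⟨L₁, L₂, L₃, hL, hγ, hleaf⟩ :=
    Pool.Agent.Results.MP_ae5b4e_an.WholeExteriorRigidity.result h (leaves hG) (leaves_fol hG)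
      ⟨tau hG 0, ⟨0, rfl⟩, par_smooth h (tau_cont hG 0) (wd_tau_zero h hK hG)⟩
      (projective h hK hG)
  obtain ⟨κ0, hκ0, -, hinf⟩ := hleaf (tau hG 0) ⟨0, rfl⟩
  obtain ⟨x₀, y₀, A, B, C, l, hl, hA, hAC, hq⟩ := conic hL hκ0 (fun v hv hv2 => by
    obtain ⟨x, r, rfl⟩ := (hinf v hv).mp hv2
    rw [meet_eq]
    simp [dirv, point, wd_tau_zero h hK hG x])
  have hne : ∀ q : ℝ × ℝ, (![q.1, q.2, 1] : Fin 3 → ℝ) ≠ 0 := fun q h0 => by
    simpa using congrFun h0 2
  have E1 : ∀ q : ℝ × ℝ, qd x₀ y₀ A B C q = 1 ↔ ∃ x, q = (a x, b x) := by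
    intro q
    have h1 := hγ ![q.1, q.2, 1] (hne q)
    rw [(hq q).1, (hq q).2] at h1
    constructor
    · intro h2
      obtain ⟨x, r, hv⟩ := h1.mp (by rw [h2, mul_one])
      have e0 := congrFun hv 0
      have e1 := congrFun hv 1
      have e2 := congrFun hv 2
      simp [point] at e0 e1 e2
      refine ⟨x, Prod.ext ?_ ?_⟩
      · rw [e0, ← e2, one_mul]
      · rw [e1, ← e2, one_mul]
    · rintro ⟨x, hx⟩
      have h2 := h1.mpr ⟨x, 1, by rw [one_smul, hx]; rfl⟩
      have h3 : l * qd x₀ y₀ A B C q = l * 1 := by rw [h2, mul_one]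
      exact mul_left_cancel₀ hl.ne' h3
  have E2 : ∀ t : ℝ, ∃ k : ℝ, ∀ q : ℝ × ℝ, k * qd x₀ y₀ A B C q = 1 ↔
      ∃ x s : ℝ, s ≠ 0 ∧ q = tp a b x s ∧ rho (fun s => F (tp a b x s)) s⁻¹ = t := by
    intro t
    obtain ⟨k, -, -, hk⟩ := hleaf (tau hG t) ⟨t, rfl⟩
    refine ⟨k, fun q => ?_⟩
    rw [← leaf_iff h hG t q, ← hk _ (hne q), (hq q).1, (hq q).2]
    constructor
    · intro h1
      linear_combination l * h1
    · intro h1
      have h2 : l * (k * qd x₀ y₀ A B C q) = l * 1 := by linear_combination h1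
      exact mul_left_cancel₀ hl.ne' h2
  choose k hk using E2
  have hsym : ∀ t : ℝ, 0 < t → k t = k (-t) := by
    intro t ht
    obtain ⟨σ, hσ⟩ := (hK 0).rho_surj t
    have hσ0 : σ ≠ 0 := by
      rintro rfl
      rw [rho_zero] at hσ
      linarith
    obtain ⟨y, ⟨hy1, hy2⟩, hy'⟩ := sig_surj h 0 σ
    have hw : wd a b 0 y ≠ 0 := by
      intro h0
      apply hσ0
      rw [← hy']
      unfold sig
      rw [h0, zero_div]
    have c1 := (hk t (tp a b 0 σ⁻¹)).mpr ⟨0, σ⁻¹, inv_ne_zero hσ0, rfl, by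
      rw [inv_inv]
      exact hσ⟩
    have hsw := tp_swap h hy1 hy2 hw
    rw [hy'] at hsw
    have hsm : rho (fun s => F (tp a b y s)) (sig a b y (0 + 2 * π)) = -t := by
      have h1 := hG.symm 0 y hy1 hy2
      have h2 : Gf a b F 0 y = t := by
        unfold Gf
        rw [hy']
        exact hσ
      rw [h2] at h1
      exact h1
    have hs' : sig a b y (0 + 2 * π) ≠ 0 := by
      intro h0
      rw [h0, rho_zero] at hsm
      linarith
    have c2 := (hk (-t) (tp a b 0 σ⁻¹)).mpr ⟨y, (sig a b y (0 + 2 * π))⁻¹, inv_ne_zero hs', hsw, by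
      rw [inv_inv]
      exact hsm⟩
    have hQ : qd x₀ y₀ A B C (tp a b 0 σ⁻¹) ≠ 0 := by
      intro h0
      rw [h0, mul_zero] at c1
      exact zero_ne_one c1
    exact mul_right_cancel₀ hQ (c1.trans c2.symm)
  -- the quadratic polynomial on the tangent line at `0`
  set m : ℝ := A * deriv a 0 ^ 2 + 2 * B * deriv a 0 * deriv b 0 + C * deriv b 0 ^ 2 with hm
  set β : ℝ := A * (a 0 - x₀) * deriv a 0 + B * ((a 0 - x₀) * deriv b 0 +
    (b 0 - y₀) * deriv a 0) + C * (b 0 - y₀) * deriv b 0 with hβ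
  have hpoly : ∀ s, qd x₀ y₀ A B C (tp a b 0 s) = 1 + 2 * β * s + m * s ^ 2 := by
    intro s
    have h1 := (E1 (a 0, b 0)).mpr ⟨0, rfl⟩
    rw [← h1, hm, hβ]
    unfold qd tp
    simp only
    ring
  have hβ0 : β = 0 := by
    set t := rho (fun s => F (tp a b 0 s)) 1 with ht
    have ht0 : 0 < t := by
      have := (hK 0).rho_strict (show (0 : ℝ) < 1 by norm_num)
      rwa [rho_zero] at this
    have c1 := (hk t (tp a b 0 1)).mpr ⟨0, 1, one_ne_zero, rfl, by rw [inv_one]⟩
    have c2 := (hk (-t) (tp a b 0 (-1))).mpr ⟨0, -1, by norm_num, rfl, by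
      rw [inv_neg, inv_one, (hK 0).rho_odd]⟩
    rw [hpoly] at c1 c2
    rw [← hsym t ht0] at c2
    have hk0 : k t ≠ 0 := by
      intro h0
      rw [h0, zero_mul] at c1
      exact zero_ne_one c1
    have : k t * β = 0 := by linear_combination (c1 - c2) / 4
    exact (mul_eq_zero.mp this).resolve_left hk0
  have hm0 : 0 < m := by
    have e : A * m = (A * deriv a 0 + B * deriv b 0) ^ 2 + (A * C - B ^ 2) * deriv b 0 ^ 2 := by
      rw [hm]
      ring
    have hAm : 0 < A * m := by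
      rw [e]
      rcases eq_or_ne (deriv b 0) 0 with h0 | h0
      · have ha0 : deriv a 0 ≠ 0 := (tne h 0).resolve_right (by simp [h0])
        rw [h0]
        have : 0 < (A * deriv a 0) ^ 2 := by positivity
        simpa using this
      · have h1 : 0 < (A * C - B ^ 2) * deriv b 0 ^ 2 := mul_pos (by linarith) (by positivity)
        have h2 := sq_nonneg (A * deriv a 0 + B * deriv b 0)
        linarith
    exact (mul_pos_iff_of_pos_left hA).mp hAm
  refine ⟨x₀, y₀, A, B, C, hA, hAC, E1, fun ρ => F (tp a b 0 (Real.sqrt ((ρ - 1) / m))),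
    ?_, ?_⟩
  · intro ρ1 h1 ρ2 h2 h12
    have h1' : (1 : ℝ) ≤ ρ1 := h1
    refine (hK 0).mono (mem_Ici.mpr (Real.sqrt_nonneg _)) (mem_Ici.mpr (Real.sqrt_nonneg _)) ?_
    apply Real.sqrt_lt_sqrt
    · exact div_nonneg (by linarith) hm0.le
    · exact div_lt_div_of_pos_right (by linarith) hm0
  · intro q hq1
    rcases eq_or_lt_of_le hq1 with h1 | h1
    · obtain ⟨x, hx⟩ := (E1 q).mp h1.symm
      have e1 : q = tp a b x 0 := by
        rw [hx]
        unfold tp
        simp
      have e2 := (hK x).zero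
      have e3 := (hK 0).zero
      simp only at e2 e3 ⊢
      rw [← h1, sub_self, zero_div, Real.sqrt_zero, e3, e1, e2]
    · set s0 := Real.sqrt ((qd x₀ y₀ A B C q - 1) / m) with hs0
      have hs0p : 0 < s0 := Real.sqrt_pos.mpr (div_pos (by linarith) hm0)
      have hs0q : m * s0 ^ 2 = qd x₀ y₀ A B C q - 1 := by
        rw [hs0, Real.sq_sqrt (div_nonneg (by linarith) hm0.le)]
        field_simp
      have e1 : qd x₀ y₀ A B C (tp a b 0 s0) = qd x₀ y₀ A B C q := by
        rw [hpoly, hβ0, hs0q]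
        ring
      set t0 := rho (fun s => F (tp a b 0 s)) s0⁻¹ with ht0
      have c1 := (hk t0 (tp a b 0 s0)).mpr ⟨0, s0, hs0p.ne', rfl, rfl⟩
      rw [e1] at c1
      obtain ⟨x, s, hs, hqx, hts⟩ := (hk t0 q).mp c1
      have ht0v : t0 = (F (tp a b 0 s0))⁻¹ := by
        rw [ht0, rho_pos (inv_pos.mpr hs0p), inv_inv]
      have hF0 : 0 < F (tp a b 0 s0) := (hK 0).pos hs0p.ne'
      have hsp : 0 < s := by
        rcases lt_or_gt_of_ne hs with h' | h'
        · exfalso
          rw [rho_neg (inv_lt_zero.mpr h'), inv_inv, ht0v] at hts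
          have h2 : 0 < F (tp a b x s) := (hK x).pos hs
          have h3 := inv_pos.mpr h2
          have h4 := inv_pos.mpr hF0
          linarith
        · exact h'
      rw [rho_pos (inv_pos.mpr hsp), inv_inv, ht0v] at hts
      have e5 : F (tp a b x s) = F (tp a b 0 s0) := inv_injective hts
      have e6 : F q = F (tp a b x s) := congrArg F hqx
      exact e6.trans e5

end Pool.Agent.Run7.h235.AE
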