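import Pool.Agent.Results.MP_ae5b4e_an.WholeExteriorRigidity

/-!
# MP_ae5b4e_an, analytic exterior foliations: tangent lines of a convex curve
-/

set_option autoImplicit false

open Filter Topology Set Real
open scoped ContDiff Matrix

namespace Pool.Agent.Run7.h235.AE

open Pool.Agent.Results.MP_ae5b4e_an.WholeExteriorRigidity

/-- determinant of the tangent vectors -/
noncomputable def wd (a b : ℝ → ℝ) (x y : ℝ) : ℝ := deriv a x * deriv b y - deriv b x * deriv a y

/-- numerator of the coordinate of the intersection of the tangents at `x` and `y` -/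
noncomputable def nd (a b : ℝ → ℝ) (x y : ℝ) : ℝ :=
  (a y - a x) * deriv b y - (b y - b x) * deriv a y

/-- inverse coordinate, on the tangent at `x`, of its intersection with the tangent at `y` -/
noncomputable def sig (a b : ℝ → ℝ) (x y : ℝ) : ℝ := wd a b x y / nd a b x y

/-- point of the tangent line at `x` -/
noncomputable def tp (a b : ℝ → ℝ) (x s : ℝ) : ℝ × ℝ := (a x + s * deriv a x, b x + s * deriv b x)

theorem slope_pos {μ : ℝ → ℝ} {c x : ℝ} (h : HasDerivAt μ c x) (hc : 0 < c) (h0 : μ x = 0) :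
    (∃ ε > 0, ∀ y, x < y → y < x + ε → 0 < μ y) ∧ ∃ ε > 0, ∀ y, x - ε < y → y < x → μ y < 0 := by
  have h1 := (hasDerivAt_iff_tendsto_slope.mp h).eventually_const_lt hc
  rw [eventually_nhdsWithin_iff, Metric.eventually_nhds_iff] at h1
  obtain ⟨ε, hε, h2⟩ := h1
  refine ⟨⟨ε, hε, fun y hy1 hy2 => ?_⟩, ε, hε, fun y hy1 hy2 => ?_⟩
  · have h3 := h2 (y := y) (by rw [Real.dist_eq, abs_of_pos (by linarith)]; linarith)
      (by simpa using hy1.ne')
    rw [slope_def_field, h0, sub_zero] at h3
    exact (div_pos_iff_of_pos_right (by linarith)).mp h3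
  · have h3 := h2 (y := y) (by rw [Real.dist_eq, abs_of_neg (by linarith)]; linarith)
      (by simpa using hy2.ne)
    rw [slope_def_field, h0, sub_zero] at h3
    rcases div_pos_iff.mp h3 with h4 | h4
    · linarith [h4.2]
    · exact h4.1

theorem nonvanish {p1 p2 q1 q2 r1 r2 : ℝ} (h1 : p1 * q2 - p2 * q1 = 0)
    (h2 : q1 * r2 - q2 * r1 ≠ 0) (h3 : p1 ≠ 0 ∨ p2 ≠ 0) : p1 * r2 - p2 * r1 ≠ 0 := by
  intro h4
  have e1 : (q1 * r2 - q2 * r1) * p1 = 0 := by linear_combination q1 * h4 - r1 * h1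
  have e2 : (q1 * r2 - q2 * r1) * p2 = 0 := by linear_combination q2 * h4 - r2 * h1
  rcases h3 with h | h
  · exact h ((mul_eq_zero.mp e1).resolve_left h2)
  · exact h ((mul_eq_zero.mp e2).resolve_left h2)

variable {a b : ℝ → ℝ} (h : ConvexCurve a b)
include h

theorem pda (x : ℝ) : deriv a (x + 2 * π) = deriv a x := per_d h (da h) h.per₁ x

theorem pdb (x : ℝ) : deriv b (x + 2 * π) = deriv b x := per_d h (db h) h.per₂ x

theorem tne (x : ℝ) : deriv a x ≠ 0 ∨ deriv b x ≠ 0 := by
  by_contra hcon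
  push Not at hcon
  have := h.curvature x
  rw [hcon.1, hcon.2] at this
  simp at this

theorem nd_pos {x y : ℝ} (h1 : x < y) (h2 : y < x + 2 * π) : 0 < nd a b x y := by
  have h4 := h.convex y (x + 2 * π) h2 (by linarith)
  rw [h.per₁, h.per₂] at h4
  have e : nd a b x y = deriv a y * (b x - b y) - deriv b y * (a x - a y) := by
    unfold nd
    ring
  rw [e]
  exact h4

theorem nd_swap (x y : ℝ) : nd a b y (x + 2 * π) =
    deriv a x * (b y - b x) - deriv b x * (a y - a x) := by
  unfold nd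
  rw [h.per₁, h.per₂, pda h, pdb h]
  ring

theorem wd_swap (x y : ℝ) : wd a b y (x + 2 * π) = -wd a b x y := by
  unfold wd
  rw [pda h, pdb h]
  ring

theorem wd_d (x y : ℝ) : HasDerivAt (fun y => wd a b x y)
    (deriv a x * deriv (deriv b) y - deriv b x * deriv (deriv a) y) y :=
  ((db1 h y).const_mul _).sub ((da1 h y).const_mul _)

theorem wd_dx (x y : ℝ) : HasDerivAt (fun x => wd a b x y)
    (deriv (deriv a) x * deriv b y - deriv (deriv b) x * deriv a y) x :=
  ((da1 h x).mul_const _).sub ((db1 h x).mul_const _)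

theorem nd_d (x y : ℝ) : HasDerivAt (fun y => nd a b x y)
    ((a y - a x) * deriv (deriv b) y - (b y - b x) * deriv (deriv a) y) y := by
  have h1 := (((da h y).sub_const (a x)).mul (db1 h y)).sub
    (((db h y).sub_const (b x)).mul (da1 h y))
  exact h1.congr_deriv (by ring)

theorem sig_anti (x : ℝ) : StrictAntiOn (sig a b x) (Ioo x (x + 2 * π)) := by
  have hd : ∀ y ∈ Ioo x (x + 2 * π), HasDerivAt (sig a b x)
      (-((deriv a y * deriv (deriv b) y - deriv b y * deriv (deriv a) y) *
        (deriv a x * (b y - b x) - deriv b x * (a y - a x))) / nd a b x y ^ 2) y := by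
    intro y hy
    have h1 := (wd_d h x y).div (nd_d h x y) (nd_pos h hy.1 hy.2).ne'
    refine h1.congr_deriv ?_
    congr 1
    unfold wd nd
    ring
  apply strictAntiOn_of_deriv_neg (convex_Ioo _ _)
  · intro y hy
    exact (hd y hy).continuousAt.continuousWithinAt
  · intro y hy
    rw [interior_Ioo] at hy
    rw [(hd y hy).deriv]
    apply div_neg_of_neg_of_pos
    · have h1 := h.curvature y
      have h2 := h.convex x y hy.1 hy.2
      have := mul_pos h1 h2
      linarith
    · exact pow_pos (nd_pos h hy.1 hy.2) 2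

theorem sig_surj (x σ : ℝ) : ∃ y, (x < y ∧ y < x + 2 * π) ∧ sig a b x y = σ := by
  set μ : ℝ → ℝ := fun y => wd a b x y - σ * nd a b x y with hμ
  have hπ : 0 < π := Real.pi_pos
  have hd : ∀ y, HasDerivAt μ (deriv a x * deriv (deriv b) y - deriv b x * deriv (deriv a) y -
      σ * ((a y - a x) * deriv (deriv b) y - (b y - b x) * deriv (deriv a) y)) y :=
    fun y => (wd_d h x y).sub ((nd_d h x y).const_mul σ)
  have hc : Continuous μ := continuous_iff_continuousAt.mpr fun y => (hd y).continuousAt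
  have e0 : μ x = 0 := by
    simp only [hμ, wd, nd]
    ring
  have e1 : μ (x + 2 * π) = 0 := by
    simp only [hμ, wd, nd]
    rw [h.per₁, h.per₂, pda h, pdb h]
    ring
  have d0 := hd x
  have d1 := hd (x + 2 * π)
  rw [h.per₁, h.per₂, sub_self, sub_self, zero_mul, zero_mul, sub_zero, mul_zero, sub_zero] at d1
  rw [sub_self, sub_self, zero_mul, zero_mul, sub_zero, mul_zero, sub_zero] at d0
  rw [← pda h x, ← pdb h x] at d1
  obtain ⟨⟨ε0, hε0, p0⟩, -⟩ := slope_pos d0 (h.curvature x) e0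
  obtain ⟨-, ε1, hε1, p1⟩ := slope_pos d1 (h.curvature (x + 2 * π)) e1
  set y0 := x + min (ε0 / 2) (π / 2) with hy0
  set y1 := x + 2 * π - min (ε1 / 2) (π / 2) with hy1
  have m0 : 0 < min (ε0 / 2) (π / 2) := lt_min (by linarith) (by linarith)
  have m1 : 0 < min (ε1 / 2) (π / 2) := lt_min (by linarith) (by linarith)
  have n0 := min_le_left (ε0 / 2) (π / 2)
  have n0' := min_le_right (ε0 / 2) (π / 2)
  have n1 := min_le_left (ε1 / 2) (π / 2)
  have n1' := min_le_right (ε1 / 2) (π / 2)
  have f0 : 0 < μ y0 := p0 y0 (by linarith) (by linarith)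
  have f1 : μ y1 < 0 := p1 y1 (by linarith) (by linarith)
  have hle : y0 ≤ y1 := by linarith
  obtain ⟨y, hy, hy'⟩ := intermediate_value_Icc' hle hc.continuousOn
    (show (0 : ℝ) ∈ Icc (μ y1) (μ y0) from ⟨f1.le, f0.le⟩)
  have k1 : x < y := by linarith [hy.1]
  have k2 : y < x + 2 * π := by linarith [hy.2]
  refine ⟨y, ⟨k1, k2⟩, ?_⟩
  unfold sig
  rw [div_eq_iff (nd_pos h k1 k2).ne']
  have : wd a b x y - σ * nd a b x y = 0 := hy'
  linarith

/-- the tangents at `x` and `y` meet in one point -/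
theorem tp_swap {x y : ℝ} (h1 : x < y) (h2 : y < x + 2 * π) (hw : wd a b x y ≠ 0) :
    tp a b x (sig a b x y)⁻¹ = tp a b y (sig a b y (x + 2 * π))⁻¹ := by
  have n1 := (nd_pos h h1 h2).ne'
  have n2 := (h.convex x y h1 h2).ne'
  unfold sig
  rw [wd_swap h, nd_swap h, inv_div, inv_div]
  unfold tp
  have e1 : wd a b x y * (a y - a x) = nd a b x y * deriv a x +
      (deriv a x * (b y - b x) - deriv b x * (a y - a x)) * deriv a y := by
    unfold wd nd
    ring
  have e2 : wd a b x y * (b y - b x) = nd a b x y * deriv b x +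
      (deriv a x * (b y - b x) - deriv b x * (a y - a x)) * deriv b y := by
    unfold wd nd
    ring
  refine Prod.ext ?_ ?_
  · simp only
    rw [div_neg]
    field_simp
    linear_combination -e1
  · simp only
    rw [div_neg]
    field_simp
    linear_combination -e2

/-- parallel tangents: the leaf at infinity is smooth -/
theorem par_smooth {τ : ℝ → ℝ} (hτ : Continuous τ) (hw : ∀ x, wd a b x (τ x) = 0) :
    ContDiff ℝ ∞ τ ∧ ∀ x, deriv τ x ≠ 0 := by
  set W : ℝ × ℝ → ℝ := fun p => wd a b p.1 p.2 with hW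
  have hWc : ContDiff ℝ ∞ W := by
    have h1 := sa1 h
    have h2 := sb1 h
    exact ((h1.comp contDiff_fst).mul (h2.comp contDiff_snd)).sub
      ((h2.comp contDiff_fst).mul (h1.comp contDiff_snd))
  have hy : ∀ x y, fderiv ℝ W (x, y) (0, 1) =
      deriv a x * deriv (deriv b) y - deriv b x * deriv (deriv a) y := by
    intro x y
    have h1 : HasDerivAt (fun y : ℝ => (x, y)) ((0 : ℝ), (1 : ℝ)) y :=
      (hasDerivAt_const y x).prodMk (hasDerivAt_id y)
    have h2 := ((hWc.differentiable (by norm_num)) (x, y)).hasFDerivAt.comp_hasDerivAt y h1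
    exact h2.unique (wd_d h x y)
  have hx : ∀ x y, fderiv ℝ W (x, y) (1, 0) =
      deriv (deriv a) x * deriv b y - deriv (deriv b) x * deriv a y := by
    intro x y
    have h1 : HasDerivAt (fun x : ℝ => (x, y)) ((1 : ℝ), (0 : ℝ)) x :=
      (hasDerivAt_id x).prodMk (hasDerivAt_const x y)
    have h2 := ((hWc.differentiable (by norm_num)) (x, y)).hasFDerivAt.comp_hasDerivAt x h1
    exact h2.unique (wd_dx h x y)
  have ny : ∀ x, fderiv ℝ W (x, τ x) (0, 1) ≠ 0 := by
    intro x
    rw [hy]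
    exact nonvanish (hw x) (h.curvature (τ x)).ne' (tne h x)
  have nx : ∀ x, fderiv ℝ W (x, τ x) (1, 0) ≠ 0 := by
    intro x
    rw [hx]
    have h1 := nonvanish (p1 := deriv a (τ x)) (p2 := deriv b (τ x)) (q1 := deriv a x)
      (q2 := deriv b x) (r1 := deriv (deriv a) x) (r2 := deriv (deriv b) x)
      (by have := hw x; unfold wd at this; linarith) (h.curvature x).ne' (tne h (τ x))
    intro h2
    apply h1
    linarith
  have hsm : ContDiff ℝ ∞ τ := by
    rw [contDiff_iff_contDiffAt]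
    intro x0
    have hcd : ContDiffAt ℝ ∞ W (x0, τ x0) := hWc.contDiffAt
    have pn : (∞ : WithTop ℕ∞) ≠ 0 := by norm_num
    have if₂ : (fderiv ℝ W (x0, τ x0) ∘L .inr ℝ ℝ ℝ).IsInvertible := by
      refine ⟨ContinuousLinearEquiv.unitsEquivAut ℝ (Units.mk0 _ (ny x0)), ?_⟩
      ext
      simp
    have h1 := hcd.eventually_apply_eq_iff_implicitFunction pn if₂
    have h2 : Tendsto (fun x => (x, τ x)) (𝓝 x0) (𝓝 (x0, τ x0)) :=
      (continuous_id.prodMk hτ).continuousAt
    have h3 := h2.eventually h1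
    have h4 : τ =ᶠ[𝓝 x0] hcd.implicitFunction pn if₂ := by
      filter_upwards [h3] with x hx
      refine (hx.mp ?_).symm
      show wd a b x (τ x) = wd a b x0 (τ x0)
      rw [hw x, hw x0]
    exact (hcd.contDiffAt_implicitFunction pn if₂).congr_of_eventuallyEq h4
  refine ⟨hsm, fun x h0 => nx x ?_⟩
  have h1 : HasDerivAt τ (deriv τ x) x := (hsm.differentiable (by norm_num) x).hasDerivAt
  rw [h0] at h1
  have h2 : HasDerivAt (fun x : ℝ => (x, τ x)) ((1 : ℝ), (0 : ℝ)) x := (hasDerivAt_id x).prodMk h1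
  have h3 := ((hWc.differentiable (by norm_num)) (x, τ x)).hasFDerivAt.comp_hasDerivAt x h2
  have h4 : (W ∘ fun x : ℝ => (x, τ x)) = fun _ => (0 : ℝ) := by
    funext x
    exact hw x
  rw [h4] at h3
  exact h3.unique (hasDerivAt_const x 0)

end Pool.Agent.Run7.h235.AE
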