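import Pool.Agent.R825.SI.A

/-!
# MP_ae5b4e_an, analytic exterior foliations: functions of one variable

`K` is the restriction of the function whose levels are the leaves to a tangent line of the curve.
-/

set_option autoImplicit false

open Filter Topology Set

namespace Pool.Agent.Run7.h235.AE

/-- `K` tends to infinity at both ends of the line -/
def Coer (K : ℝ → ℝ) : Prop := ∀ C : ℝ, ∃ R : ℝ, ∀ s : ℝ, R < |s| → C < K s

theorem m_zero {K : ℝ → ℝ} (hK : ∀ x, AnalyticAt ℝ K x) (hc : Coer K) {m : ℝ}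
    (hm : ∀ᶠ s in 𝓝 (0 : ℝ), K (-s / (1 + m * s)) = K s) : m = 0 := by
  have hgl := Pool.Agent.R825.SI.glob hK (m := m) hm
  have hcont : Continuous K := continuous_iff_continuousAt.mpr fun s => (hK s).continuousAt
  by_contra hm0
  obtain ⟨ε, hε, hεm⟩ : ∃ ε : ℝ, (ε = 1 ∨ ε = -1) ∧ m * ε = |m| := by
    rcases lt_or_gt_of_ne hm0 with h | h
    · exact ⟨-1, Or.inr rfl, by rw [abs_of_neg h]; ring⟩
    · exact ⟨1, Or.inl rfl, by rw [abs_of_pos h]; ring⟩
  have hεabs : |ε| = 1 := by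
    rcases hε with h | h <;> rw [h] <;> norm_num
  have hmabs : 0 < |m| := abs_pos.mpr hm0
  obtain ⟨C, hC⟩ := (isCompact_Icc (a := -(1 / |m|)) (b := 1 / |m|)).bddAbove_image
    hcont.continuousOn
  have hbd : ∀ u : ℝ, 0 ≤ u → K (ε * u) ≤ C := by
    intro u hu
    have e1 : 1 + m * (ε * u) = 1 + |m| * u := by
      rw [← hεm]
      ring
    have e2 : 0 < 1 + m * (ε * u) := by
      rw [e1]
      positivity
    rw [← hgl _ e2]
    apply hC
    refine ⟨_, ?_, rfl⟩
    rw [mem_Icc, ← abs_le]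
    unfold Pool.Agent.R825.SI.sg
    rw [abs_div, abs_neg, abs_mul, hεabs, one_mul, abs_of_pos e2, e1, abs_of_nonneg hu,
      div_le_div_iff₀ (by positivity) hmabs]
    nlinarith
  obtain ⟨R, hR⟩ := hc C
  have h1 := hR (ε * (|R| + 1)) (by
    rw [abs_mul, hεabs, one_mul, abs_of_nonneg (by positivity : (0 : ℝ) ≤ |R| + 1)]
    linarith [le_abs_self R])
  have h2 := hbd (|R| + 1) (by positivity)
  linarith

theorem even_of_proj {K : ℝ → ℝ} (hK : ∀ x, AnalyticAt ℝ K x) (hc : Coer K) {m : ℝ}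
    (hm : ∀ᶠ s in 𝓝 (0 : ℝ), K (-s / (1 + m * s)) = K s) (s : ℝ) : K (-s) = K s := by
  have hm0 := m_zero hK hc hm
  subst hm0
  have h := Pool.Agent.R825.SI.glob hK hm s (by norm_num)
  simpa [Pool.Agent.R825.SI.sg] using h

theorem strict_of_quasi {K : ℝ → ℝ} (hK : ∀ x, AnalyticAt ℝ K x) (hc : Coer K) (h0 : K 0 = 0)
    (hpos : ∀ s, s ≠ 0 → 0 < K s) (hq : ∀ r, 0 < r → Convex ℝ {s | K s ≤ r}) :
    StrictMonoOn K (Ici 0) := by
  have hmono : ∀ s t, 0 ≤ s → s ≤ t → K s ≤ K t := by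
    intro s t hs hst
    rcases eq_or_lt_of_le hs with h | h
    · rw [← h, h0]
      rcases eq_or_ne t 0 with h' | h'
      · rw [h', h0]
      · exact (hpos t h').le
    have ht : 0 < K t := hpos t (by linarith)
    have h1 : (0 : ℝ) ∈ {s | K s ≤ K t} := by
      show K 0 ≤ K t
      rw [h0]
      exact ht.le
    have h2 : t ∈ {s | K s ≤ K t} := le_refl (K t)
    exact (hq _ ht).ordConnected.out h1 h2 ⟨hs, hst⟩
  intro s hs t ht hst
  refine lt_of_le_of_ne (hmono s t hs hst.le) ?_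
  intro heq
  have hconst : ∀ u ∈ Icc s t, K u = K s := by
    intro u hu
    refine le_antisymm ?_ (hmono s u hs hu.1)
    rw [heq]
    exact hmono u t (le_trans hs hu.1) hu.2
  have h1 : AnalyticOnNhd ℝ K univ := fun x _ => hK x
  have h2 : AnalyticOnNhd ℝ (fun _ : ℝ => K s) univ := fun x _ => analyticAt_const
  have h3 : K =ᶠ[𝓝 ((s + t) / 2)] fun _ => K s := by
    filter_upwards [Icc_mem_nhds (show s < (s + t) / 2 by linarith)
      (show (s + t) / 2 < t by linarith)] with u hu using hconst u hu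
  have h4 := h1.eqOn_of_preconnected_of_eventuallyEq h2 isPreconnected_univ (mem_univ _) h3
  obtain ⟨R, hR⟩ := hc (K s)
  have h5 := hR (|R| + 1) (by
    rw [abs_of_nonneg (by positivity : (0 : ℝ) ≤ |R| + 1)]
    linarith [le_abs_self R])
  have h6 := h4 (mem_univ (|R| + 1))
  simp only at h6
  linarith

/-- the properties of `K` that are used below -/
structure Good (K : ℝ → ℝ) : Prop where
  cont : Continuous K
  coer : Coer K
  zero : K 0 = 0
  even : ∀ s, K (-s) = K s
  mono : StrictMonoOn K (Ici 0)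

theorem Good.pos {K : ℝ → ℝ} (h : Good K) {s : ℝ} (hs : s ≠ 0) : 0 < K s := by
  have key : ∀ u : ℝ, 0 < u → 0 < K u := by
    intro u hu
    have := h.mono (mem_Ici.mpr le_rfl) (mem_Ici.mpr hu.le) hu
    rwa [h.zero] at this
  rcases lt_or_gt_of_ne hs with h' | h'
  · rw [← h.even]
    exact key _ (by linarith)
  · exact key _ h'

/-- leaf parameter of the point with the coordinate `1 / σ` -/
noncomputable def rho (K : ℝ → ℝ) (σ : ℝ) : ℝ :=
  if 0 < σ then (K σ⁻¹)⁻¹ else if σ < 0 then -(K σ⁻¹)⁻¹ else 0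

theorem rho_pos {K : ℝ → ℝ} {σ : ℝ} (hσ : 0 < σ) : rho K σ = (K σ⁻¹)⁻¹ := by
  unfold rho
  rw [if_pos hσ]

theorem rho_neg {K : ℝ → ℝ} {σ : ℝ} (hσ : σ < 0) : rho K σ = -(K σ⁻¹)⁻¹ := by
  unfold rho
  rw [if_neg (by linarith), if_pos hσ]

theorem rho_zero {K : ℝ → ℝ} : rho K 0 = 0 := by
  unfold rho
  simp

theorem Good.rho_odd {K : ℝ → ℝ} (h : Good K) (σ : ℝ) : rho K (-σ) = -rho K σ := by
  rcases lt_trichotomy σ 0 with h' | h' | h'
  · rw [rho_neg h', rho_pos (by linarith), inv_neg, h.even, neg_neg]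
  · rw [h', neg_zero, rho_zero, neg_zero]
  · rw [rho_pos h', rho_neg (by linarith), inv_neg, h.even]

theorem Good.rho_strict {K : ℝ → ℝ} (h : Good K) : StrictMono (rho K) := by
  have key : ∀ x y : ℝ, 0 < x → x < y → rho K x < rho K y := by
    intro x y hx hxy
    have hy : 0 < y := hx.trans hxy
    rw [rho_pos hx, rho_pos hy]
    have h1 : 0 < K y⁻¹ := h.pos (inv_pos.mpr hy).ne'
    have h2 : K y⁻¹ < K x⁻¹ := h.mono (mem_Ici.mpr (inv_pos.mpr hy).le)
      (mem_Ici.mpr (inv_pos.mpr hx).le) ((inv_lt_inv₀ hy hx).mpr hxy)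
    exact (inv_lt_inv₀ (h1.trans h2) h1).mpr h2
  have kp : ∀ x : ℝ, 0 < x → 0 < rho K x := by
    intro x hx
    rw [rho_pos hx]
    exact inv_pos.mpr (h.pos (inv_pos.mpr hx).ne')
  intro x y hxy
  rcases lt_trichotomy x 0 with hx | hx | hx
  · have ex : rho K x = -rho K (-x) := by rw [h.rho_odd, neg_neg]
    rcases lt_trichotomy y 0 with hy | hy | hy
    · have ey : rho K y = -rho K (-y) := by rw [h.rho_odd, neg_neg]
      have := key (-y) (-x) (by linarith) (by linarith)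
      linarith
    · rw [hy, rho_zero, ex]
      have := kp (-x) (by linarith)
      linarith
    · have := kp (-x) (by linarith)
      have := kp y hy
      linarith
  · rw [hx, rho_zero]
    exact kp y (by linarith)
  · exact key x y hx hxy

theorem Good.rho_surj {K : ℝ → ℝ} (h : Good K) (t : ℝ) : ∃ σ, rho K σ = t := by
  have key : ∀ t : ℝ, 0 < t → ∃ σ, rho K σ = t := by
    intro t ht
    obtain ⟨R, hR⟩ := h.coer t⁻¹
    have hR0 : 0 < |R| + 1 := by positivity
    have h1 : t⁻¹ < K (|R| + 1) := hR _ (by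
      rw [abs_of_pos hR0]
      linarith [le_abs_self R])
    have h2 : t⁻¹ ∈ Icc (K 0) (K (|R| + 1)) := by
      rw [h.zero]
      exact ⟨(inv_pos.mpr ht).le, h1.le⟩
    obtain ⟨s, hs, hs'⟩ := intermediate_value_Icc hR0.le h.cont.continuousOn h2
    have hs0 : 0 < s := by
      rcases eq_or_lt_of_le hs.1 with h' | h'
      · exfalso
        rw [← h', h.zero] at hs'
        have := inv_pos.mpr ht
        linarith
      · exact h'
    refine ⟨s⁻¹, ?_⟩
    rw [rho_pos (inv_pos.mpr hs0), inv_inv, hs', inv_inv]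
  rcases lt_trichotomy t 0 with h' | h' | h'
  · obtain ⟨σ, hσ⟩ := key (-t) (by linarith)
    exact ⟨-σ, by rw [h.rho_odd, hσ, neg_neg]⟩
  · exact ⟨0, by rw [rho_zero, h']⟩
  · exact key t h'

end Pool.Agent.Run7.h235.AE
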