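import Mathlib

/-!
# MP_ae5b4e_an, analytic exterior foliations: the leaves as monotone maps
-/

set_option autoImplicit false

open Filter Topology Set Real

namespace Pool.Agent.Run7.h235.AE

/-- `G x y` is the parameter of the leaf through the intersection of the tangents at `x`, `y` -/
structure Rel (G : ℝ → ℝ → ℝ) : Prop where
  anti : ∀ x y z, x < y → y < z → z < x + 2 * π → G x z < G x y
  surj : ∀ x t, ∃ y, (x < y ∧ y < x + 2 * π) ∧ G x y = t
  symm : ∀ x y, x < y → y < x + 2 * π → G y (x + 2 * π) = -G x y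
  per : ∀ x y, G (x + 2 * π) (y + 2 * π) = G x y

variable {G : ℝ → ℝ → ℝ} (hG : Rel G)

/-- the leaf with the parameter `t` -/
noncomputable def tau (hG : Rel G) (t x : ℝ) : ℝ := (hG.surj x t).choose

include hG

theorem tau_gt (t x : ℝ) : x < tau hG t x := (hG.surj x t).choose_spec.1.1

theorem tau_lt (t x : ℝ) : tau hG t x < x + 2 * π := (hG.surj x t).choose_spec.1.2

theorem tau_eq (t x : ℝ) : G x (tau hG t x) = t := (hG.surj x t).choose_spec.2

theorem tau_unique {t x y : ℝ} (h1 : x < y) (h2 : y < x + 2 * π) (h3 : G x y = t) :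
    tau hG t x = y := by
  have e := tau_eq hG t x
  rcases lt_trichotomy (tau hG t x) y with h | h | h
  · have := hG.anti x _ _ (tau_gt hG t x) h h2
    linarith
  · exact h
  · have := hG.anti x _ _ h1 h (tau_lt hG t x)
    linarith

theorem tau_inv (t x : ℝ) : tau hG (-t) (tau hG t x) = x + 2 * π := by
  apply tau_unique hG (tau_lt hG t x)
  · linarith [tau_gt hG t x]
  · rw [hG.symm x _ (tau_gt hG t x) (tau_lt hG t x), tau_eq hG t x]

theorem tau_per (t x : ℝ) : tau hG t (x + 2 * π) = tau hG t x + 2 * π := by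
  apply tau_unique hG
  · linarith [tau_gt hG t x]
  · linarith [tau_lt hG t x]
  · rw [hG.per, tau_eq hG t x]

theorem tau_mono (t : ℝ) : StrictMono (tau hG t) := by
  intro x1 x2 h12
  by_contra hcon
  push Not at hcon
  have g1 := tau_gt hG t x1
  have g2 := tau_gt hG t x2
  have l1 := tau_lt hG t x1
  have l2 := tau_lt hG t x2
  set y := tau hG t x1 with hy
  -- in the variable `x`, `G` is increasing
  have e1 : G y (x1 + 2 * π) = -t := by
    rw [hG.symm x1 y g1 l1, hy, tau_eq hG t x1]
  have e2 : G y (x2 + 2 * π) = -G x2 y := hG.symm x2 y (by linarith) (by linarith)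
  have e3 := hG.anti y (x1 + 2 * π) (x2 + 2 * π) l1 (by linarith) (by linarith)
  have e4 : t < G x2 y := by linarith
  have e5 : G x2 y ≤ G x2 (tau hG t x2) := by
    rcases eq_or_lt_of_le hcon with h | h
    · rw [h]
    · exact (hG.anti x2 _ _ g2 h (by linarith)).le
  rw [tau_eq hG t x2] at e5
  linarith

theorem tau_surj (t : ℝ) : Function.Surjective (tau hG t) := by
  intro y
  refine ⟨tau hG (-t) y - 2 * π, ?_⟩
  have h1 := tau_inv hG (-t) y
  rw [neg_neg] at h1
  have h2 := tau_per hG t (tau hG (-t) y - 2 * π)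
  rw [sub_add_cancel, h1] at h2
  linarith

theorem tau_cont (t : ℝ) : Continuous (tau hG t) :=
  (tau_mono hG t).monotone.continuous_of_surjective (tau_surj hG t)

end Pool.Agent.Run7.h235.AE
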