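import Pool.Agent.Run7.h235.AE.Line
import Pool.Agent.Run7.h235.AE.Rel
import Pool.Agent.Run7.h235.AE.Geo
import Pool.Agent.Run7.h235.AE.Conic

/-!
# MP_ae5b4e_an, analytic exterior foliations: main argument
-/

set_option autoImplicit false

open Filter Topology Set Real
open scoped ContDiff Matrix

namespace Pool.Agent.Run7.h235.AE

open Pool.Agent.Results.MP_ae5b4e_an.WholeExteriorRigidity

/-- parameter of the leaf through the intersection of the tangents at `x` and `y` -/
noncomputable def Gf (a b : ℝ → ℝ) (F : ℝ × ℝ → ℝ) (x y : ℝ) : ℝ :=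
  rho (fun s => F (tp a b x s)) (sig a b x y)

/-- homogeneous coordinates of the direction of the tangent at `x` -/
noncomputable def dirv (a b : ℝ → ℝ) (x : ℝ) : Fin 3 → ℝ := ![deriv a x, deriv b x, 0]

theorem meet_eq (a b : ℝ → ℝ) (x y : ℝ) :
    meet a b x y = nd a b x y • dirv a b x + wd a b x y • point a b x := by
  unfold meet tangentLine point dirv nd wd
  rw [cross_eq, cross_eq, cross_eq]
  refine Pool.Agent.TH229.PG.ext3 ?_ ?_ ?_
  · simp
    ring
  · simp
    ring
  · simp
    ring

theorem meet_swap (a b : ℝ → ℝ) (x y : ℝ) : meet a b x y = -meet a b y x := by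
  unfold meet
  rw [cross_eq, cross_eq]
  refine Pool.Agent.TH229.PG.ext3 ?_ ?_ ?_
  · simp
    ring
  · simp
    ring
  · simp
    ring

variable {a b : ℝ → ℝ} (h : ConvexCurve a b) {F : ℝ × ℝ → ℝ}
  (hK : ∀ x, Good fun s => F (tp a b x s))

include h in
theorem meet_per (x y : ℝ) : meet a b y (x + 2 * π) = meet a b y x := by
  unfold meet
  congr 1
  unfold tangentLine point
  rw [h.per₁, h.per₂, pda h, pdb h]

include h in
theorem tp_per (x s : ℝ) : tp a b (x + 2 * π) s = tp a b x s := by
  unfold tp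
  rw [h.per₁, h.per₂, pda h, pdb h]

include h in
theorem sig_per (x y : ℝ) : sig a b (x + 2 * π) (y + 2 * π) = sig a b x y := by
  unfold sig wd nd
  rw [h.per₁, h.per₂, h.per₁, h.per₂, pda h, pdb h, pda h, pdb h]

include h hK in
theorem rel : Rel (Gf a b F) := by
  refine ⟨?_, ?_, ?_, ?_⟩
  · intro x y z h1 h2 h3
    exact (hK x).rho_strict (sig_anti h x ⟨h1, h2.trans h3⟩ ⟨h1.trans h2, h3⟩ h2)
  · intro x t
    obtain ⟨σ, hσ⟩ := (hK x).rho_surj t
    obtain ⟨y, hy, hy'⟩ := sig_surj h x σ
    refine ⟨y, hy, ?_⟩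
    unfold Gf
    rw [hy', hσ]
  · intro x y h1 h2
    have n1 := nd_pos h h1 h2
    have n2 : 0 < nd a b y (x + 2 * π) := nd_pos h h2 (by linarith)
    unfold Gf
    rcases eq_or_ne (wd a b x y) 0 with hw | hw
    · have e1 : sig a b x y = 0 := by
        unfold sig
        rw [hw, zero_div]
      have e2 : sig a b y (x + 2 * π) = 0 := by
        unfold sig
        rw [wd_swap h, hw, neg_zero, zero_div]
      rw [e1, e2, rho_zero, rho_zero, neg_zero]
    · have hsw := tp_swap h h1 h2 hw
      rcases lt_or_gt_of_ne hw with hw' | hw'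
      · have e1 : sig a b x y < 0 := div_neg_of_neg_of_pos hw' n1
        have e2 : 0 < sig a b y (x + 2 * π) := by
          unfold sig
          rw [wd_swap h]
          exact div_pos (by linarith) n2
        rw [rho_neg e1, rho_pos e2, hsw, neg_neg]
      · have e1 : 0 < sig a b x y := div_pos hw' n1
        have e2 : sig a b y (x + 2 * π) < 0 := by
          unfold sig
          rw [wd_swap h]
          exact div_neg_of_neg_of_pos (by linarith) n2
        rw [rho_pos e1, rho_neg e2, hsw]
  · intro x y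
    unfold Gf
    rw [sig_per h]
    congr 1
    funext s
    rw [tp_per h]

/-- the leaves -/
def leaves {G : ℝ → ℝ → ℝ} (hG : Rel G) : Set (ℝ → ℝ) := {τ | ∃ t, τ = tau hG t}

theorem leaves_fol {G : ℝ → ℝ → ℝ} (hG : Rel G) : Foliation (leaves hG) := by
  refine ⟨?_, ?_⟩
  · rintro τ ⟨t, rfl⟩
    exact ⟨tau_cont hG t, tau_mono hG t, tau_per hG t, tau_gt hG t, tau_lt hG t⟩
  · intro x x' h1 h2
    refine ⟨tau hG (G x x'), ⟨⟨_, rfl⟩, tau_unique hG h1 h2 rfl⟩, ?_⟩
    rintro τ ⟨⟨t, rfl⟩, ht⟩
    have := tau_eq hG t x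
    rw [ht] at this
    rw [this]

include h hK in
theorem wd_tau_zero (hG : Rel (Gf a b F)) (x : ℝ) : wd a b x (tau hG 0 x) = 0 := by
  have h1 : rho (fun s => F (tp a b x s)) (sig a b x (tau hG 0 x)) = 0 := tau_eq hG 0 x
  have h2 : rho (fun s => F (tp a b x s)) (sig a b x (tau hG 0 x)) =
      rho (fun s => F (tp a b x s)) 0 := by
    rw [h1, rho_zero]
  have h3 := (hK x).rho_strict.injective h2
  unfold sig at h3
  rcases div_eq_zero_iff.mp h3 with h4 | h4
  · exact h4
  · exact absurd h4 (nd_pos h (tau_gt hG 0 x) (tau_lt hG 0 x)).ne'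

/-- reflection of the tangent line at `p` -/
noncomputable def phi (a b : ℝ → ℝ) (p : ℝ) : Module.Dual ℝ (Fin 3 → ℝ) :=
  (2 / (deriv a p ^ 2 + deriv b p ^ 2)) •
    (deriv a p • (LinearMap.proj 0 - a p • LinearMap.proj 2) +
      deriv b p • (LinearMap.proj 1 - b p • LinearMap.proj 2))

theorem phi_apply (a b : ℝ → ℝ) (p : ℝ) (v : Fin 3 → ℝ) :
    phi a b p v = (2 / (deriv a p ^ 2 + deriv b p ^ 2)) *
      (deriv a p * (v 0 - a p * v 2) + deriv b p * (v 1 - b p * v 2)) := by
  simp [phi]
  ring

include h in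
theorem phi_dir (p : ℝ) : phi a b p (dirv a b p) = 2 := by
  have h1 : deriv a p ^ 2 + deriv b p ^ 2 ≠ 0 := by
    rcases tne h p with h' | h'
    · positivity
    · positivity
  rw [phi_apply]
  unfold dirv
  simp
  field_simp

theorem phi_point (a b : ℝ → ℝ) (p : ℝ) : phi a b p (point a b p) = 0 := by
  rw [phi_apply]
  unfold point
  simp

include h hK in
theorem projective (hG : Rel (Gf a b F)) (p : ℝ) : ProjectiveAt a b (leaves hG) p := by
  have hd := phi_dir h p
  have r1 : Module.reflection hd (point a b p) = point a b p := by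
    rw [Module.reflection_apply, phi_point]
    simp
  have r2 : Module.reflection hd (dirv a b p) = -dirv a b p := by
    rw [Module.reflection_apply, hd]
    module
  refine ⟨Module.reflection hd, ⟨1, by rw [r1, one_smul]⟩, ?_⟩
  rintro τ ⟨t, rfl⟩ u hu
  have g1 := tau_gt hG t p
  have g2 := tau_lt hG t p
  have g3 := tau_gt hG t u
  have g4 := tau_lt hG t u
  rw [hu] at g3 g4
  set y := tau hG t p with hy
  have n1 := nd_pos h g1 g2
  have n2 : 0 < nd a b p (u + 2 * π) := nd_pos h g4 (by linarith)
  have e1 : Gf a b F p y = t := tau_eq hG t p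
  have e2 : Gf a b F p (u + 2 * π) = -t := by
    rw [hG.symm u p g3 g4]
    have := tau_eq hG t u
    rw [hu] at this
    rw [this]
  have e3 : sig a b p (u + 2 * π) = -sig a b p y := by
    apply (hK p).rho_strict.injective
    rw [(hK p).rho_odd]
    have e4 : rho (fun s => F (tp a b p s)) (sig a b p (u + 2 * π)) = -t := e2
    have e5 : rho (fun s => F (tp a b p s)) (sig a b p y) = t := e1
    rw [e4, e5]
  have e4 : wd a b p (u + 2 * π) * nd a b p y = -(wd a b p y * nd a b p (u + 2 * π)) := by
    unfold sig at e3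
    rw [← neg_div, div_eq_div_iff n2.ne' n1.ne'] at e3
    linarith
  have m1 : meet a b u p = -meet a b p (u + 2 * π) := by
    rw [meet_swap, meet_per h]
  have m2 : Module.reflection hd (meet a b p y) = -(nd a b p y • dirv a b p) +
      wd a b p y • point a b p := by
    rw [meet_eq, map_add, map_smul, map_smul, r1, r2, smul_neg]
  have m3 : meet a b u p = (nd a b p (u + 2 * π) / nd a b p y) •
      Module.reflection hd (meet a b p y) := by
    rw [m1, m2, meet_eq]
    have e5 : wd a b p (u + 2 * π) = -(nd a b p (u + 2 * π) / nd a b p y * wd a b p y) := by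
      field_simp
      linarith
    have e6 : nd a b p (u + 2 * π) / nd a b p y * nd a b p y = nd a b p (u + 2 * π) := by
      field_simp
    rw [smul_add, smul_neg, smul_smul, smul_smul, e6, e5, neg_smul]
    module
  refine ⟨⟨nd a b p y / nd a b p (u + 2 * π), ?_⟩, nd a b p (u + 2 * π) / nd a b p y, ?_⟩
  · rw [m3, smul_smul]
    have : nd a b p y / nd a b p (u + 2 * π) * (nd a b p (u + 2 * π) / nd a b p y) = 1 := by
      field_simp
    rw [this, one_smul]
  · rw [m3, map_smul, Module.involutive_reflection hd]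

end Pool.Agent.Run7.h235.AE
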