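import Pool.Agent.Run7.h235.OB.Flat

/-!
# MP_ae5b4e_an, analytic exterior foliations: exclusion of points of zero curvature
-/

set_option autoImplicit false

open Filter Topology Set Real
open scoped ContDiff

namespace Pool.Agent.Run7.h235.AE

open Pool.Agent.Run7.h235.OB

variable {a b : ℝ → ℝ} (h : WCurve a b) {F : ℝ × ℝ → ℝ}
  (hd : ∀ x s, s ≠ 0 → DifferentiableAt ℝ F (tp a b x s))
  (he : ∀ x s, F (tp a b x (-s)) = F (tp a b x s))

include h hd he in
theorem flat_gen {x : ℝ}
    (hk : deriv a x * deriv (deriv b) x - deriv b x * deriv (deriv a) x = 0) {s : ℝ}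
    (hs : 0 < s) : HasDerivAt (fun s => F (tp a b x s)) 0 s := by
  have hL := (hd x s hs.ne').hasFDerivAt
  have hM := (hd x (-s) (by linarith [neg_neg s, hs] : -s ≠ 0)).hasFDerivAt
  set L := fderiv ℝ F (tp a b x s)
  set M := fderiv ℝ F (tp a b x (-s))
  have s1 : HasDerivAt (fun s => F (tp a b x s)) (L (deriv a x, deriv b x)) s :=
    hL.comp_hasDerivAt s (tp_ds a b x s)
  have s2 : HasDerivAt (fun s => F (tp a b x (-s))) (M (-(deriv a x, deriv b x))) s := by
    have h1 : HasDerivAt (fun s : ℝ => tp a b x (-s)) (-(deriv a x, deriv b x)) s := by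
      have h2 := (tp_ds a b x (-s)).scomp s (hasDerivAt_neg s)
      have h3 : (-1 : ℝ) • (deriv a x, deriv b x) = -(deriv a x, deriv b x) := by
        rw [neg_one_smul]
      rw [h3] at h2
      exact h2
    exact hM.comp_hasDerivAt s h1
  have s3 : (fun s => F (tp a b x (-s))) = fun s => F (tp a b x s) := funext fun s => he x s
  rw [s3] at s2
  have e1 : L (deriv a x, deriv b x) = M (-(deriv a x, deriv b x)) := s1.unique s2
  have x1 : HasDerivAt (fun x => F (tp a b x s))
      (L (deriv a x + s * deriv (deriv a) x, deriv b x + s * deriv (deriv b) x)) x :=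
    HasFDerivAt.comp_hasDerivAt (l := F) (f := fun x => tp a b x s) x hL (tp_dx h x s)
  have x2 : HasDerivAt (fun x => F (tp a b x (-s)))
      (M (deriv a x + -s * deriv (deriv a) x, deriv b x + -s * deriv (deriv b) x)) x :=
    HasFDerivAt.comp_hasDerivAt (l := F) (f := fun x => tp a b x (-s)) x hM (tp_dx h x (-s))
  have x3 : (fun x => F (tp a b x s)) = fun x => F (tp a b x (-s)) :=
    funext fun u => (he u s).symm
  rw [x3] at x1
  have e2 := x1.unique x2
  set n : ℝ := deriv a x ^ 2 + deriv b x ^ 2 with hn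
  have hn0 : n ≠ 0 := by
    rcases h.regular x with h1 | h1
    · positivity
    · positivity
  set μ : ℝ := (deriv a x * deriv (deriv a) x + deriv b x * deriv (deriv b) x) / n with hμ
  have ma : deriv (deriv a) x = μ * deriv a x := by
    rw [hμ]
    field_simp
    rw [hn]
    linear_combination (-deriv b x) * hk
  have mb : deriv (deriv b) x = μ * deriv b x := by
    rw [hμ]
    field_simp
    rw [hn]
    linear_combination (deriv a x) * hk
  have v1 : (deriv a x + s * deriv (deriv a) x, deriv b x + s * deriv (deriv b) x) =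
      (1 + s * μ) • (deriv a x, deriv b x) := by
    rw [ma, mb]
    refine Prod.ext ?_ ?_
    · simp only [Prod.smul_fst, smul_eq_mul]
      ring
    · simp only [Prod.smul_snd, smul_eq_mul]
      ring
  have v2 : (deriv a x + -s * deriv (deriv a) x, deriv b x + -s * deriv (deriv b) x) =
      (1 - s * μ) • (deriv a x, deriv b x) := by
    rw [ma, mb]
    refine Prod.ext ?_ ?_
    · simp only [Prod.smul_fst, smul_eq_mul]
      ring
    · simp only [Prod.smul_snd, smul_eq_mul]
      ring
  rw [v1, v2, map_smul, map_smul, smul_eq_mul, smul_eq_mul] at e2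
  rw [map_neg] at e1
  have e3 : L (deriv a x, deriv b x) = 0 := by
    have h1 : M (deriv a x, deriv b x) = -L (deriv a x, deriv b x) := by linarith
    rw [h1] at e2
    linarith
  rw [e3] at s1
  exact s1

include h in
theorem pos_of_ne (hne : ∀ x, deriv a x * deriv (deriv b) x - deriv b x * deriv (deriv a) x ≠ 0)
    (x : ℝ) : 0 < deriv a x * deriv (deriv b) x - deriv b x * deriv (deriv a) x := by
  set κ : ℝ → ℝ := fun x => deriv a x * deriv (deriv b) x - deriv b x * deriv (deriv a) x with hκ
  by_contra hcon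
  have hx : κ x < 0 := lt_of_le_of_ne (not_lt.mp hcon) (hne x)
  set m' : ℝ → ℝ := fun y => deriv a x * deriv b y - deriv b x * deriv a y with hm'
  set m : ℝ → ℝ := fun y => deriv a x * (b y - b x) - deriv b x * (a y - a x) with hm
  have d1 : ∀ y, HasDerivAt m (m' y) y := fun y =>
    (((wdb h y).sub_const (b x)).const_mul _).sub (((wda h y).sub_const (a x)).const_mul _)
  have d2 : HasDerivAt (fun y => -m' y) (-κ x) x :=
    (((wdb1 h x).const_mul _).sub ((wda1 h x).const_mul _)).neg
  obtain ⟨⟨ε, hε, hε'⟩, -⟩ := slope_pos d2 (by linarith) (by simp only [hm']; ring)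
  set δ := min (ε / 2) π with hδ
  have hδp : 0 < δ := lt_min (by linarith) Real.pi_pos
  have hδ1 : δ ≤ ε / 2 := min_le_left _ _
  have hδ2 : δ ≤ π := min_le_right _ _
  have hanti : StrictAntiOn m (Icc x (x + δ)) := by
    apply strictAntiOn_of_deriv_neg (convex_Icc _ _)
    · exact fun y _ => (d1 y).continuousAt.continuousWithinAt
    · intro y hy
      rw [interior_Icc] at hy
      rw [(d1 y).deriv]
      have := hε' y hy.1 (by linarith [hy.2])
      linarith
  have h1 := hanti ⟨le_rfl, by linarith⟩ ⟨by linarith, le_rfl⟩ (show x < x + δ by linarith)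
  have h2 : m x = 0 := by
    simp only [hm]
    ring
  have h3 := h.convex x (x + δ) (by linarith) (by linarith [Real.pi_pos])
  have h4 : 0 < m (x + δ) := h3
  linarith

include h hd he in
theorem curv_of_coer (hc : ∀ x, Coer fun s => F (tp a b x s)) (x : ℝ) :
    0 < deriv a x * deriv (deriv b) x - deriv b x * deriv (deriv a) x := by
  refine pos_of_ne h (fun x hk => ?_) x
  have hd' : ∀ s, 0 < s → HasDerivAt (fun s => F (tp a b x s)) 0 s := fun s hs =>
    flat_gen h hd he hk hs
  obtain ⟨R, hR⟩ := hc x (F (tp a b x 1))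
  have hpos : (0 : ℝ) < |R| + 1 := by positivity
  have h1 := isOpen_Ioi.is_const_of_deriv_eq_zero (s := Ioi (0 : ℝ)) isPreconnected_Ioi
    (f := fun s => F (tp a b x s))
    (fun u hu => (hd' u hu).differentiableAt.differentiableWithinAt)
    (fun u hu => (hd' u hu).deriv) (mem_Ioi.mpr hpos) (mem_Ioi.mpr (by norm_num : (0 : ℝ) < 1))
  have h2 := hR (|R| + 1) (by
    rw [abs_of_pos hpos]
    linarith [le_abs_self R])
  simp only at h1 h2
  linarith

end Pool.Agent.Run7.h235.AE
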